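import Pool.Agent.Mg.Febf981.G127a80

set_option autoImplicit false

namespace Pool.Agent.Results.MP_ebf981_lc.DictatorUpToNine

/-- For at most nine players, every dimension and every noise rate, a dictator maximises the
agreement probability among odd Boolean functions. -/
theorem result :
  ∀ (r n : ℕ) (ε : ℝ), r ≤ 9 → 0 < ε → ε < 1/2 →
  ∀ P : ((Fin n → Bool) → Bool) → ℝ,
    (∀ f : (Fin n → Bool) → Bool, P f = ∑ x : Fin n → Bool, ∑ y : Fin r → Fin n → Bool,
        (1/2 : ℝ) ^ n * (∏ i, ∏ j, (if y i j = x j then 1 - ε else ε)) *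
        (if ∀ i i', f (y i) = f (y i') then (1 : ℝ) else 0)) →
    ∀ (i : Fin n) (f : (Fin n → Bool) → Bool), (∀ x, f (fun j => !x j) = !f x) →
      P f ≤ P (fun x => x i) :=
  Pool.Agent.MP_ebf981_lc.N9.upto_nine Pool.Agent.MP_ebf981_lc.N9.nine

end Pool.Agent.Results.MP_ebf981_lc.DictatorUpToNine
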