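import Pool.Agent.MP_ebf981_lc.LNMain

set_option autoImplicit false

namespace Pool.Agent.Results.MP_ebf981_lc.LowNoise

/-- For every number of players r, every dimension n and every noise rate with
(ε r)² min (5 n, 1/ε) ≤ 1/200, a dictator maximises the agreement probability among odd and
among balanced Boolean functions. -/
theorem result :
  ∀ (r n : ℕ) (ε : ℝ), 0 < ε → (ε * (r : ℝ)) ^ 2 * min (5 * (n : ℝ)) (1 / ε) ≤ 1 / 200 →
  ∀ P : ((Fin n → Bool) → Bool) → ℝ,
    (∀ f : (Fin n → Bool) → Bool, P f = ∑ x : Fin n → Bool, ∑ y : Fin r → Fin n → Bool,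
        (1/2 : ℝ) ^ n * (∏ i, ∏ j, (if y i j = x j then 1 - ε else ε)) *
        (if ∀ i i', f (y i) = f (y i') then (1 : ℝ) else 0)) →
    ∀ (i : Fin n) (f : (Fin n → Bool) → Bool),
      ((∀ x, f (fun j => !x j) = !f x) ∨
        (Finset.univ.filter fun x => f x = true).card =
          (Finset.univ.filter fun x => f x = false).card) →
      P f ≤ P (fun x => x i) :=
  Pool.Agent.MP_ebf981_lc.LN.main

end Pool.Agent.Results.MP_ebf981_lc.LowNoise
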