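import Pool.Agent.MP_ebf981_lc.PL.All

set_option autoImplicit false

namespace Pool.Agent.Results.MP_ebf981_lc.Polylog

open Pool.Agent.MP_ebf981_lc.PL

/-- For a fixed noise rate, the majority of at least `(log r) ^ 2` bits is optimal among odd and
among balanced Boolean functions in any dimension up to a factor `(log r) ^ C`. -/
theorem result :
  ∀ ε : ℝ, 0 < ε → ε < 1 / 2 → ∃ C : ℕ, ∀ r : ℕ, C ≤ r →
  ∀ P : (n : ℕ) → ((Fin n → Bool) → Bool) → ℝ,
    (∀ (n : ℕ) (f : (Fin n → Bool) → Bool), P n f = ∑ x : Fin n → Bool,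
      ∑ y : Fin r → Fin n → Bool,
        (1/2 : ℝ) ^ n * (∏ i, ∏ j, (if y i j = x j then 1 - ε else ε)) *
        (if ∀ i i', f (y i) = f (y i') then (1 : ℝ) else 0)) →
    ∀ (n k : ℕ) (f : (Fin n → Bool) → Bool), Real.log r ^ 2 ≤ k →
      ((∀ x, f (fun j => !x j) = !f x) ∨
        (Finset.univ.filter fun x => f x = true).card =
          (Finset.univ.filter fun x => f x = false).card) →
      P n f ≤ Real.log r ^ C *
        P k (fun x => decide (k < 2 * (Finset.univ.filter fun j => x j = true).card)) :=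
  main_of rsse sUp sTail sCher

end Pool.Agent.Results.MP_ebf981_lc.Polylog
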